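import Pool.Agent.Q264.PD.Stm

/-!
# Project PD (helper264), job POT: potentials of closed one-forms on the plane
-/

set_option autoImplicit false

open MeasureTheory Complex Filter Metric Set
open scoped ContDiff

namespace Pool.Agent.Q182.PD

open Pool.Agent.Q264.PD

/-- Job POT. -/
theorem t_POT : S_POT := by
  intro P R hP hR hPR
  let L1 : ℂ →L[ℝ] (ℂ →L[ℝ] ℂ) := ContinuousLinearMap.smulRightL ℝ ℂ ℂ Complex.reCLM
  let L2 : ℂ →L[ℝ] (ℂ →L[ℝ] ℂ) := ContinuousLinearMap.smulRightL ℝ ℂ ℂ Complex.imCLM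
  let wf : ℂ → ℂ →L[ℝ] ℂ := fun z => L1 (P z) + L2 (R z)
  have hwf : ContDiff ℝ 2 wf := (L1.contDiff.comp hP).add (L2.contDiff.comp hR)
  have hPd : Differentiable ℝ P := hP.differentiable (by norm_num)
  have hRd : Differentiable ℝ R := hR.differentiable (by norm_num)
  have hdwf : ∀ a x y : ℂ, fderiv ℝ wf a x y = y.re • fderiv ℝ P a x + y.im • fderiv ℝ R a x := by
    intro a x y
    have h1 : HasFDerivAt wf (L1.comp (fderiv ℝ P a) + L2.comp (fderiv ℝ R a)) a :=
      (L1.hasFDerivAt.comp a (hPd a).hasFDerivAt).add (L2.hasFDerivAt.comp a (hRd a).hasFDerivAt)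
    rw [h1.fderiv]
    simp [L1, L2]
  have hlin : ∀ (T : ℂ →L[ℝ] ℂ) (x : ℂ), T x = x.re • T 1 + x.im • T I := by
    intro T x
    conv_lhs => rw [← Complex.re_add_im x]
    have e1 : ((x.re : ℂ)) = x.re • (1 : ℂ) := by simp
    have e2 : ((x.im : ℂ)) * I = x.im • I := by simp
    rw [e1, e2, map_add, map_smul, map_smul]
  obtain ⟨f, hf⟩ := (convex_univ (𝕜 := ℝ) (E := ℂ)).exists_forall_hasFDerivAt_of_fderiv_symmetric
    isOpen_univ (hwf.differentiable (by norm_num)).differentiableOn (by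
      intro a _ x y
      rw [hdwf, hdwf, hlin (fderiv ℝ P a) x, hlin (fderiv ℝ R a) x, hlin (fderiv ℝ P a) y,
        hlin (fderiv ℝ R a) y]
      have h : fderiv ℝ P a I = fderiv ℝ R a 1 := hPR a
      rw [h]
      module)
  have hf' : ∀ z, HasFDerivAt f (wf z) z := fun z => hf z (mem_univ z)
  have hfd : fderiv ℝ f = wf := funext fun z => (hf' z).fderiv
  refine ⟨f, ?_, ?_⟩
  · have : ContDiff ℝ (2 + 1) f := by
      rw [contDiff_succ_iff_fderiv]
      refine ⟨fun z => (hf' z).differentiableAt, by simp, ?_⟩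
      rw [hfd]
      exact hwf
    exact this.of_le (by norm_num)
  · intro z
    constructor
    · change fderiv ℝ f z 1 = P z
      rw [hfd]
      simp [wf, L1, L2]
    · change fderiv ℝ f z I = R z
      rw [hfd]
      simp [wf, L1, L2]

end Pool.Agent.Q182.PD
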